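import Mathlib

set_option autoImplicit false

/-!
# Project CE of helper7, job ERS: finitely generated groups modulo 3 and indices
-/

namespace Pool.Agent.Q38.CE

/-- the elements killed by 3 -/
def T3 (M : Type) [AddCommGroup M] : AddSubgroup M where
  carrier := {x | (3 : ℕ) • x = 0}
  zero_mem' := smul_zero _
  add_mem' := by
    intro x y hx hy
    show (3 : ℕ) • (x + y) = 0
    have hx' : (3 : ℕ) • x = 0 := hx
    have hy' : (3 : ℕ) • y = 0 := hy
    rw [smul_add, hx', hy', add_zero]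
  neg_mem' := by
    intro x hx
    show (3 : ℕ) • (-x) = 0
    have hx' : (3 : ℕ) • x = 0 := hx
    rw [smul_neg, hx', neg_zero]

theorem mem_T3 {M : Type} [AddCommGroup M] {x : M} : x ∈ T3 M ↔ (3 : ℕ) • x = 0 := Iff.rfl

/-- a finitely generated group of rank `r` has a quotient `(ℤ/3)^r` -/
theorem exists_map {M : Type} [AddCommGroup M] (hfg : AddGroup.FG M) :
    ∃ f : M →+ (Fin (Module.finrank ℤ M) → ZMod 3), Function.Surjective f ∧ ∀ x, (3 : ℕ) • x = 0 → f x = 0 := by
  have hM : Module.Finite ℤ M := Module.Finite.iff_addGroup_fg.2 hfg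
  have hr : Module.finrank ℤ (M ⧸ Submodule.torsion ℤ M) = Module.finrank ℤ M :=
    finrank_quotient_eq_of_le_torsion le_rfl
  have hfree : Module.Free ℤ (M ⧸ Submodule.torsion ℤ M) := inferInstance
  let b := Module.finBasisOfFinrankEq ℤ (M ⧸ Submodule.torsion ℤ M) hr
  let g : (Fin (Module.finrank ℤ M) → ℤ) →+ (Fin (Module.finrank ℤ M) → ZMod 3) :=
    { toFun := fun v i => (v i : ZMod 3)
      map_zero' := by
        funext i
        simp
      map_add' := by
        intro v w
        funext i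
        simp }
  have hg : Function.Surjective g := by
    intro v
    refine ⟨fun i => ((v i).val : ℤ), ?_⟩
    funext i
    show (((v i).val : ℤ) : ZMod 3) = v i
    rw [Int.cast_natCast, ZMod.natCast_zmod_val]
  refine ⟨g.comp (b.equivFun.toLinearMap.toAddMonoidHom.comp (Submodule.mkQ (Submodule.torsion ℤ M)).toAddMonoidHom),
    ?_, ?_⟩
  · intro v
    obtain ⟨w, hw⟩ := hg v
    obtain ⟨x, hx⟩ := Submodule.mkQ_surjective (Submodule.torsion ℤ M) (b.equivFun.symm w)
    refine ⟨x, ?_⟩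
    show g (b.equivFun (Submodule.mkQ (Submodule.torsion ℤ M) x)) = v
    rw [hx, LinearEquiv.apply_symm_apply, hw]
  · intro x hx
    show g (b.equivFun (Submodule.mkQ (Submodule.torsion ℤ M) x)) = 0
    have h1 : Submodule.mkQ (Submodule.torsion ℤ M) x = 0 := by
      rw [Submodule.mkQ_apply, Submodule.Quotient.mk_eq_zero]
      refine ⟨⟨3, mem_nonZeroDivisors_of_ne_zero (by norm_num)⟩, ?_⟩
      show (3 : ℤ) • x = 0
      rw [← hx, ← natCast_zsmul]
      rfl
    rw [h1, map_zero, map_zero]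

/-- the index of `3 M + M[3]` -/
theorem index_three {M : Type} [AddCommGroup M] (hfg : AddGroup.FG M) (Y : AddSubgroup M)
    (hY : Y ≤ (nsmulAddMonoidHom 3 : M →+ M).range ⊔ T3 M) (h0 : Y.index ≠ 0) :
    3 ^ Module.finrank ℤ M ≤ Y.index := by
  obtain ⟨f, hf, hf3⟩ := exists_map hfg
  have h1 : f.ker.index = 3 ^ Module.finrank ℤ M := by
    rw [AddSubgroup.index_ker, AddMonoidHom.range_eq_top.2 hf]
    rw [AddSubgroup.card_top, Nat.card_fun, Nat.card_zmod, Nat.card_eq_fintype_card, Fintype.card_fin]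
  rw [← h1]
  refine Nat.le_of_dvd (Nat.pos_of_ne_zero h0) (AddSubgroup.index_dvd_of_le (hY.trans ?_))
  refine sup_le ?_ ?_
  · rintro _ ⟨x, rfl⟩
    rw [AddMonoidHom.mem_ker]
    show f ((3 : ℕ) • x) = 0
    rw [map_nsmul]
    funext i
    show (3 : ℕ) • (f x i) = 0
    rw [nsmul_eq_mul]
    have : ((3 : ℕ) : ZMod 3) = 0 := ZMod.natCast_self 3
    rw [this, zero_mul]
  · intro x hx
    rw [mem_T3] at hx
    rw [AddMonoidHom.mem_ker]
    exact hf3 x hx

end Pool.Agent.Q38.CE
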