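import Pool.Agent.Q7.CE.Stm2
import Pool.Agent.Q285.CE.ETRI
import Pool.Agent.Q38.CE.Fg

set_option autoImplicit false

/-!
# Project CE of helper7, job ERS: ranks and the 3-torsion of the Tate-Shafarevich group
-/

namespace Pool.Agent.Q38.CE

open NumberField IsDedekindDomain WeierstrassCurve Pool.Agent.Q7.LK Pool.Agent.Q7.CE Pool.Agent.Q285.CE
open Pool.Agent.TH841.SH.D (Coch Pt act Gal IsCoc IsCob LocTriv cob)
open Pool.Agent.TH841.NF.D (Sha IsShaCoc shaCoc)

/-- a type such that every family of `N + 1` elements has a repetition -/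
theorem few_card {Q : Type} {N : ℕ} (h : ∀ q : Fin (N + 1) → Q, ∃ i i', i ≠ i' ∧ q i = q i') :
    Finite Q ∧ Nat.card Q ≤ N := by
  have hfin : Finite Q := by
    by_contra hcon
    have hinf : Infinite Q := not_finite_iff_infinite.1 hcon
    obtain ⟨i, i', h1, h2⟩ := h (fun i => Infinite.natEmbedding Q i)
    exact h1 (Fin.ext ((Infinite.natEmbedding Q).injective h2))
  refine ⟨hfin, ?_⟩
  by_contra hcon
  rw [not_le] at hcon
  obtain ⟨i, i', h1, h2⟩ := h (fun i => (Finite.equivFin Q).symm (Fin.castLE (by omega) i))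
  have h3 := (Finite.equivFin Q).symm.injective h2
  exact h1 (Fin.castLE_injective _ h3)

section gp

variable {A B : Type} [AddCommGroup A] [AddCommGroup B]

theorem relIndex_comap' (f : A →+ B) (H : AddSubgroup B) (K : AddSubgroup A) :
    (H.comap f).relIndex K = H.relIndex (K.map f) := AddSubgroup.relIndex_comap H f K

theorem index_comap' (f : A →+ B) (H : AddSubgroup B) : (H.comap f).index = H.relIndex f.range := by
  rw [← AddSubgroup.relIndex_top_right, relIndex_comap', ← AddMonoidHom.range_eq_map]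

/-- the index of `3 M + M[3]` for two endomorphisms with product `3` -/
theorem index_pair (hfg : AddGroup.FG A) (u v : A →+ A) (huv : ∀ x, u (v x) = (3 : ℕ) • x)
    (h1 : (u.range ⊔ T3 A).index ≠ 0) (h2 : (v.range ⊔ T3 A).index ≠ 0) :
    3 ^ Module.finrank ℤ A ≤ (u.range ⊔ T3 A).index * (v.range ⊔ T3 A).index := by
  obtain ⟨Y3, hY3⟩ : ∃ Y : AddSubgroup A, Y = (nsmulAddMonoidHom 3 : A →+ A).range ⊔ T3 A := ⟨_, rfl⟩
  have hle : Y3 ≤ u.range ⊔ T3 A := by
    rw [hY3]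
    refine sup_le ?_ le_sup_right
    refine le_trans ?_ le_sup_left
    rintro _ ⟨x, rfl⟩
    exact ⟨v x, huv x⟩
  have e1 := AddSubgroup.relIndex_mul_index hle
  -- the second factor
  have e2 : v.range ⊔ T3 A ≤ Y3.comap u := by
    refine sup_le ?_ ?_
    · rintro _ ⟨x, rfl⟩
      rw [AddSubgroup.mem_comap, huv, hY3]
      exact AddSubgroup.mem_sup_left ⟨x, rfl⟩
    · intro x hx
      rw [mem_T3] at hx
      rw [AddSubgroup.mem_comap, hY3]
      refine AddSubgroup.mem_sup_right ?_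
      rw [mem_T3, ← map_nsmul, hx, map_zero]
  have e3 : (Y3.comap u).index ∣ (v.range ⊔ T3 A).index := AddSubgroup.index_dvd_of_le e2
  have e4 : (Y3.comap u).index ≠ 0 := fun h => h2 (Nat.eq_zero_of_zero_dvd (h ▸ e3))
  rw [index_comap'] at e3 e4
  have e5 : Y3.relIndex (u.range ⊔ Y3) = Y3.relIndex u.range := AddSubgroup.relIndex_sup_right _ _
  have e6 : Y3.relIndex (u.range ⊔ T3 A) ≤ Y3.relIndex (u.range ⊔ Y3) := by
    refine AddSubgroup.relIndex_le_of_le_right ?_ (by rw [e5]; exact e4)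
    refine sup_le_sup_left ?_ _
    rw [hY3]
    exact le_sup_right
  have e7 : Y3.relIndex (u.range ⊔ T3 A) ≤ (v.range ⊔ T3 A).index :=
    (e6.trans e5.le).trans (Nat.le_of_dvd (Nat.pos_of_ne_zero h2) e3)
  have e8 : Y3.relIndex (u.range ⊔ T3 A) ≠ 0 := by
    intro h
    have h3 := AddSubgroup.relIndex_eq_zero_of_le_right (H := Y3) (K := u.range ⊔ T3 A) (L := u.range ⊔ Y3) (by
      refine sup_le_sup_left ?_ _
      rw [hY3]
      exact le_sup_right) h
    rw [e5] at h3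
    exact e4 h3
  have e9 : Y3.index ≠ 0 := by
    rw [← e1]
    exact mul_ne_zero e8 h1
  have e10 := index_three hfg Y3 (by rw [hY3]) e9
  rw [← e1, mul_comm] at e10
  exact e10.trans (Nat.mul_le_mul_left _ e7)

end gp

section main

variable {F : Type} [Field F] [NumberField F] (W : WeierstrassCurve F)

/-- the coboundary map -/
noncomputable def cb : Pt W (AlgebraicClosure F) →+ Coch W where
  toFun := cbd W
  map_zero' := by
    funext σ
    show act W σ.toAlgHom 0 - 0 = 0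
    rw [map_zero, sub_zero]
  map_add' := by
    intro P Q
    funext σ
    show act W σ.toAlgHom (P + Q) - (P + Q) = (act W σ.toAlgHom P - P) + (act W σ.toAlgHom Q - Q)
    rw [map_add]
    abel

theorem cb_app (P : Pt W (AlgebraicClosure F)) (σ : Gal F) : cb W P σ = act W σ.toAlgHom P - P := rfl

theorem mem_cob {f : Coch W} : f ∈ cob W ↔ ∃ P, cb W P = f := by
  constructor
  · rintro ⟨P, hP⟩
    exact ⟨P, funext fun σ => (hP σ).symm⟩
  · rintro ⟨P, rfl⟩
    exact ⟨P, fun σ => rfl⟩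

/-- the coboundaries of the points killed by `3` -/
noncomputable def B3 : AddSubgroup (Coch W) := (T3 (Pt W (AlgebraicClosure F))).map (cb W)

theorem B3_le : B3 W ≤ cob W := by
  rintro _ ⟨P, -, rfl⟩
  exact (mem_cob W).2 ⟨P, rfl⟩

/-- the points over `F` -/
noncomputable def jj : Pt W F →+ Pt W (AlgebraicClosure F) := act W (Algebra.ofId F (AlgebraicClosure F))

variable {W} {Θ : ∀ (L : Type) [Field L] [Algebra F L], Pt W L →+ Pt W L}

variable (Θ) in
/-- the endomorphism on the functions -/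
noncomputable def TH : Coch W →+ Coch W where
  toFun := fun f σ => Θ (AlgebraicClosure F) (f σ)
  map_zero' := by
    funext σ
    exact map_zero (Θ (AlgebraicClosure F))
  map_add' := by
    intro f g
    funext σ
    exact map_add (Θ (AlgebraicClosure F)) (f σ) (g σ)

theorem TH_app (f : Coch W) (σ : Gal F) : TH Θ f σ = Θ (AlgebraicClosure F) (f σ) := rfl

theorem TH_cb (hΘ : EndG W Θ) (P : Pt W (AlgebraicClosure F)) : TH Θ (cb W P) = cb W (Θ (AlgebraicClosure F) P) := by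
  funext σ
  rw [TH_app, cb_app, cb_app, map_sub, hΘ.nat]

theorem TH_sha (hΘ : EndG W Θ) {f : Coch W} (hf : f ∈ shaCoc W) : TH Θ f ∈ shaCoc W := sha_theta hΘ hf

theorem TH_cob (hΘ : EndG W Θ) {f : Coch W} (hf : f ∈ cob W) : TH Θ f ∈ cob W := by
  obtain ⟨P, rfl⟩ := (mem_cob W).1 hf
  exact (mem_cob W).2 ⟨_, (TH_cb hΘ P).symm⟩

theorem cb_sha (P : Pt W (AlgebraicClosure F)) : cb W P ∈ shaCoc W := sha_cbd P

variable (Θ) in
/-- locally trivial cocycles with values in the kernel -/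
noncomputable def CC : AddSubgroup (Coch W) := shaCoc W ⊓ (TH Θ).ker

variable (Θ) in
/-- cocycles whose image is a coboundary -/
noncomputable def UU : AddSubgroup (Coch W) := shaCoc W ⊓ (cob W).comap (TH Θ)

theorem cob_le_sha : cob W ≤ shaCoc W := by
  intro f hf
  obtain ⟨P, rfl⟩ := (mem_cob W).1 hf
  exact cb_sha P

/-- rational points -/
theorem fixed {R : Pt W (AlgebraicClosure F)} (h : cb W R = 0) : ∃ Q, jj W Q = R := by
  obtain ⟨q, hq⟩ := descent W R fun σ => by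
    have := congrFun h σ
    rw [cb_app] at this
    exact sub_eq_zero.1 this
  exact ⟨q, hq⟩

/-- the index for the points -/
theorem pts (hΘ : EndG W Θ) (h0 : (B3 W).relIndex (cob W ⊓ CC Θ) ≠ 0) :
    ((Θ F).range ⊔ T3 (Pt W F)).index ≠ 0 ∧
      ((Θ F).range ⊔ T3 (Pt W F)).index ≤ (B3 W).relIndex (cob W ⊓ CC Θ) := by
  obtain ⟨EF, hEF⟩ : ∃ E : AddSubgroup (Pt W (AlgebraicClosure F)), E = (jj W).range := ⟨_, rfl⟩
  obtain ⟨HH, hHH⟩ : ∃ H : AddSubgroup (Pt W (AlgebraicClosure F)), H = EF.comap (Θ (AlgebraicClosure F)) := ⟨_, rfl⟩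
  obtain ⟨X, hX⟩ : ∃ X : AddSubgroup (Pt W (AlgebraicClosure F)),
      X = EF.map (Θ (AlgebraicClosure F)) ⊔ T3 (Pt W (AlgebraicClosure F)) := ⟨_, rfl⟩
  have hnatj : ∀ Q : Pt W F, Θ (AlgebraicClosure F) (jj W Q) = jj W (Θ F Q) := fun Q =>
    (hΘ.nat F (AlgebraicClosure F) _ Q).symm
  -- (1) `cb` maps `HH` into `cob ⊓ CC`
  have s1 : HH.map (cb W) ≤ cob W ⊓ CC Θ := by
    rintro _ ⟨R, hR, rfl⟩
    have hR2 : R ∈ HH := hR
    rw [hHH, AddSubgroup.mem_comap, hEF] at hR2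
    obtain ⟨P, hP⟩ := hR2
    refine ⟨(mem_cob W).2 ⟨R, rfl⟩, cb_sha R, ?_⟩
    show TH Θ (cb W R) = 0
    rw [TH_cb hΘ, ← hP]
    funext σ
    rw [cb_app]
    show act W σ.toAlgHom (act W (Algebra.ofId F (AlgebraicClosure F)) P) - act W (Algebra.ofId F (AlgebraicClosure F)) P = 0
    rw [act_fix, sub_self]
  have s2 : (B3 W).relIndex (HH.map (cb W)) ≤ (B3 W).relIndex (cob W ⊓ CC Θ) :=
    AddSubgroup.relIndex_le_of_le_right s1 h0
  have s3 : (B3 W).relIndex (HH.map (cb W)) ≠ 0 := fun h =>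
    h0 (AddSubgroup.relIndex_eq_zero_of_le_right s1 h)
  rw [← relIndex_comap'] at s2 s3
  -- (2) the preimages
  have s4 : (B3 W).comap (cb W) ≤ X.comap (Θ (AlgebraicClosure F)) := by
    intro R hR
    rw [AddSubgroup.mem_comap] at hR
    obtain ⟨R', hR', he⟩ := hR
    have h1 : cb W (R - R') = 0 := by
      rw [map_sub, he, sub_self]
    obtain ⟨Q, hQ⟩ := fixed h1
    rw [AddSubgroup.mem_comap, hX]
    have h2 : Θ (AlgebraicClosure F) R = Θ (AlgebraicClosure F) (jj W Q) + Θ (AlgebraicClosure F) R' := by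
      rw [hQ, map_sub]
      abel
    rw [h2]
    refine AddSubgroup.add_mem_sup ⟨jj W Q, ?_, rfl⟩ ?_
    · rw [hEF]
      exact ⟨Q, rfl⟩
    · have h3 : (3 : ℕ) • R' = 0 := hR'
      rw [mem_T3, ← map_nsmul, h3, map_zero]
  have s5 : (X.comap (Θ (AlgebraicClosure F))).relIndex HH ≤ ((B3 W).comap (cb W)).relIndex HH :=
    AddSubgroup.relIndex_le_of_le_left s4 s3
  have s6 : (X.comap (Θ (AlgebraicClosure F))).relIndex HH ≠ 0 := fun h =>
    s3 (AddSubgroup.relIndex_eq_zero_of_le_left s4 h)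
  have s7 : HH.map (Θ (AlgebraicClosure F)) = EF := by
    rw [hHH]
    exact AddSubgroup.map_comap_eq_self_of_surjective
      (fun P => hΘ.surj (AlgebraicClosure F) inferInstance P) EF
  rw [relIndex_comap', s7, hEF, ← index_comap'] at s5 s6
  -- (3) the points over `F`
  have s8 : X.comap (jj W) ≤ (Θ F).range ⊔ T3 (Pt W F) := by
    intro P hP
    rw [AddSubgroup.mem_comap, hX, AddSubgroup.mem_sup] at hP
    obtain ⟨y, hy, z, hz, he⟩ := hP
    obtain ⟨R, hR, rfl⟩ := hy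
    have hR2 : R ∈ EF := hR
    rw [hEF] at hR2
    obtain ⟨Q, rfl⟩ := hR2
    have hinj : Function.Injective (jj W) := act_inj W _
    have h1 : jj W (P - Θ F Q) = z := by
      rw [map_sub, ← he, hnatj]
      abel
    have h2 : (3 : ℕ) • (P - Θ F Q) = 0 := by
      apply hinj
      rw [map_nsmul, h1, map_zero]
      exact hz
    have h3 : P = Θ F Q + (P - Θ F Q) := by abel
    rw [h3]
    exact AddSubgroup.add_mem_sup ⟨Q, rfl⟩ h2
  have s9 : ((Θ F).range ⊔ T3 (Pt W F)).index ∣ (X.comap (jj W)).index := AddSubgroup.index_dvd_of_le s8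
  refine ⟨fun h => s6 (Nat.eq_zero_of_zero_dvd (h ▸ s9)), ?_⟩
  exact (Nat.le_of_dvd (Nat.pos_of_ne_zero s6) s9).trans (s5.trans s2)

/-- cocycles whose image is a coboundary come from the kernel -/
theorem UU_le (hΘ : EndG W Θ) : UU Θ ≤ CC Θ ⊔ cob W := by
  rintro f ⟨hf1, hf2⟩
  have hf3 : TH Θ f ∈ cob W := hf2
  obtain ⟨P, hP⟩ := (mem_cob W).1 hf3
  obtain ⟨R, hR⟩ := hΘ.surj (AlgebraicClosure F) inferInstance P
  have h1 : f = (f - cb W R) + cb W R := by abel
  rw [h1]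
  refine AddSubgroup.add_mem_sup ⟨(shaCoc W).sub_mem hf1 (cb_sha R), ?_⟩ ((mem_cob W).2 ⟨R, rfl⟩)
  show TH Θ (f - cb W R) = 0
  rw [map_sub, TH_cb hΘ, hR, hP, sub_self]

theorem UU_idx (hΘ : EndG W Θ) (h0 : (cob W).relIndex (CC Θ) ≠ 0) :
    (cob W).relIndex (UU Θ) ≠ 0 ∧ (cob W).relIndex (UU Θ) ≤ (cob W).relIndex (CC Θ) := by
  have e : (cob W).relIndex (CC Θ ⊔ cob W) = (cob W).relIndex (CC Θ) := AddSubgroup.relIndex_sup_right _ _
  rw [← e] at h0 ⊢
  exact ⟨fun h => h0 (AddSubgroup.relIndex_eq_zero_of_le_right (UU_le hΘ) h),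
    AddSubgroup.relIndex_le_of_le_right (UU_le hΘ) h0⟩

variable (W) in
/-- the cocycles whose triple is a coboundary -/
noncomputable def U3 : AddSubgroup (Coch W) := shaCoc W ⊓ (cob W).comap (nsmulAddMonoidHom 3 : Coch W →+ Coch W)

theorem U3_idx {Θ' : ∀ (L : Type) [Field L] [Algebra F L], Pt W L →+ Pt W L} (hΘ : EndG W Θ) (hΘ' : EndG W Θ')
    (h3 : ∀ P : Pt W (AlgebraicClosure F), Θ' _ (Θ _ P) = (3 : ℕ) • P)
    (h0 : (cob W).relIndex (UU Θ) ≠ 0) (h0' : (cob W).relIndex (UU Θ') ≠ 0) :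
    (cob W).relIndex (U3 W) ≠ 0 ∧
      (cob W).relIndex (U3 W) ≤ (cob W).relIndex (UU Θ) * (cob W).relIndex (UU Θ') := by
  have hTT : ∀ f : Coch W, TH Θ' (TH Θ f) = (3 : ℕ) • f := by
    intro f
    funext σ
    exact h3 (f σ)
  have k1 : cob W ≤ UU Θ := fun f hf => ⟨cob_le_sha hf, TH_cob hΘ hf⟩
  have k2 : UU Θ ≤ U3 W := by
    rintro f ⟨hf1, hf2⟩
    refine ⟨hf1, ?_⟩
    show (3 : ℕ) • f ∈ cob W
    rw [← hTT]
    exact TH_cob hΘ' hf2
  have k3 : (UU Θ).relIndex (U3 W) = ((cob W).comap (TH Θ)).relIndex (U3 W) := by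
    rw [← AddSubgroup.inf_relIndex_right, ← AddSubgroup.inf_relIndex_right ((cob W).comap (TH Θ))]
    congr 1
    apply le_antisymm
    · rintro f ⟨⟨-, h2⟩, h3⟩
      exact ⟨h2, h3⟩
    · rintro f ⟨h2, h3⟩
      exact ⟨⟨h3.1, h2⟩, h3⟩
  have k4 : (U3 W).map (TH Θ) ≤ UU Θ' := by
    rintro _ ⟨f, hf, rfl⟩
    refine ⟨TH_sha hΘ hf.1, ?_⟩
    show TH Θ' (TH Θ f) ∈ cob W
    rw [hTT]
    exact hf.2
  have k5 : (UU Θ).relIndex (U3 W) ≤ (cob W).relIndex (UU Θ') := by
    rw [k3, relIndex_comap']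
    exact AddSubgroup.relIndex_le_of_le_right k4 h0'
  have k6 : (UU Θ).relIndex (U3 W) ≠ 0 := by
    rw [k3, relIndex_comap']
    exact fun h => h0' (AddSubgroup.relIndex_eq_zero_of_le_right k4 h)
  have k7 := AddSubgroup.relIndex_mul_relIndex (cob W) (UU Θ) (U3 W) k1 k2
  rw [← k7]
  exact ⟨mul_ne_zero h0 k6, Nat.mul_le_mul_left _ k5⟩

variable (W) in
/-- the number of the elements of order dividing `3` -/
theorem sha_card : Nat.card {x : Sha W // (3 : ℕ) • x = 0} = (cob W).relIndex (U3 W) := by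
  let q : shaCoc W →+ Sha W := QuotientAddGroup.mk' ((cob W).addSubgroupOf (shaCoc W))
  have hle : U3 W ≤ shaCoc W := inf_le_left
  let ψ : U3 W →+ Sha W := q.comp (AddSubgroup.inclusion hle)
  have hq : ∀ f : shaCoc W, q f = 0 ↔ f.1 ∈ cob W := fun f =>
    QuotientAddGroup.eq_zero_iff (N := (cob W).addSubgroupOf (shaCoc W)) f
  have hker : ψ.ker = (cob W).addSubgroupOf (U3 W) := by
    ext f
    rw [AddMonoidHom.mem_ker, AddSubgroup.mem_addSubgroupOf]
    exact hq _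
  have hrange : ψ.range = T3 (Sha W) := by
    ext x
    constructor
    · rintro ⟨f, rfl⟩
      rw [mem_T3]
      show (3 : ℕ) • q (AddSubgroup.inclusion hle f) = 0
      rw [← map_nsmul, hq]
      exact f.2.2
    · intro hx
      rw [mem_T3] at hx
      obtain ⟨f, rfl⟩ := QuotientAddGroup.mk_surjective (s := (cob W).addSubgroupOf (shaCoc W)) x
      have h1 : q ((3 : ℕ) • f) = 0 := by
        rw [map_nsmul]
        exact hx
      rw [hq] at h1
      exact ⟨⟨f.1, f.2, h1⟩, rfl⟩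
  have h1 : Nat.card ψ.range = ψ.ker.index := (AddSubgroup.index_ker ψ).symm
  rw [hrange, hker] at h1
  exact h1

end main

/-- from `Few` to the index -/
theorem few_idx {F : Type} [Field F] [NumberField F] {D : F} {N : ℕ} (hN : Few D N)
    (C : AddSubgroup (Coch (ED D))) (hC : ∀ f ∈ C, TCoc D f) :
    (B3 (ED D)).relIndex C ≠ 0 ∧ (B3 (ED D)).relIndex C ≤ N := by
  have h := few_card (Q := C ⧸ (B3 (ED D)).addSubgroupOf C) (N := N) (by
    intro q
    choose f hf using fun i => QuotientAddGroup.mk_surjective (q i)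
    obtain ⟨i, i', h1, R, hR, h2⟩ := hN (fun i => (f i).1) fun i => hC _ (f i).2
    refine ⟨i, i', h1, ?_⟩
    rw [← hf i, ← hf i', ← sub_eq_zero, ← QuotientAddGroup.mk_sub, QuotientAddGroup.eq_zero_iff,
      AddSubgroup.mem_addSubgroupOf]
    refine ⟨R, hR, ?_⟩
    funext σ
    exact (h2 σ).symm)
  have hfin := h.1
  exact ⟨Nat.card_ne_zero.2 ⟨⟨0⟩, h.1⟩, h.2⟩

theorem ers : S_EDD → S_ERS := by
  intro hEDD F _ _ ω D hω hD N hN
  obtain ⟨θ, θ', h3, hnat, hker, hsurj⟩ := hEDD F ω D hω hD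
  have hθ : EndG (ED D) θ := ⟨fun L L' _ _ _ _ φ P => (hnat L L' φ P).1, fun L _ _ P => (hker L P).1,
    fun L _ _ hL P => (hsurj L hL P).1⟩
  have hθ' : EndG (ED D) θ' := ⟨fun L L' _ _ _ _ φ P => (hnat L L' φ P).2, fun L _ _ P => (hker L P).2,
    fun L _ _ hL P => (hsurj L hL P).2⟩
  have hΔ : ((ED D).baseChange F).Δ ≠ 0 := by
    have e : ((ED D).baseChange F).Δ = -27 * D ^ 4 := by
      show -(_ : F) ^ 2 * _ - 8 * _ ^ 3 - 27 * _ ^ 2 + 9 * _ * _ * _ = _
      have e2 : ((ED D).baseChange F).b₂ = 0 := by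
        show (0 : F) ^ 2 + 4 * 0 = 0
        ring
      have e4 : ((ED D).baseChange F).b₄ = 0 := by
        show 2 * (0 : F) + 0 * D = 0
        ring
      have e6 : ((ED D).baseChange F).b₆ = D ^ 2 := by
        show D ^ 2 + 4 * (0 : F) = D ^ 2
        ring
      rw [e2, e4, e6]
      ring
    rw [e]
    exact mul_ne_zero (by norm_num) (pow_ne_zero 4 hD)
  have hfg : AddGroup.FG (Pt (ED D) F) :=
    @Pool.Agent.Q286.EQ.mordell_weil F _ _ (Classical.decEq F) ((ED D).baseChange F) hΔ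
  -- both endomorphisms
  have key : ∀ Θ : ∀ (L : Type) [Field L] [Algebra F L], Pt (ED D) L →+ Pt (ED D) L, EndG (ED D) Θ →
      ((Θ F).range ⊔ T3 (Pt (ED D) F)).index ≠ 0 ∧ (cob (ED D)).relIndex (UU Θ) ≠ 0 ∧
        ((Θ F).range ⊔ T3 (Pt (ED D) F)).index * (cob (ED D)).relIndex (UU Θ) ≤ N := by
    intro Θ hΘ
    obtain ⟨a1, a2⟩ := few_idx hN (CC Θ) (fun f hf => ⟨hf.1, fun σ => hΘ.ker _ _ (congrFun hf.2 σ)⟩)
    have e1 := AddSubgroup.relIndex_inf_mul_relIndex (B3 (ED D)) (cob (ED D)) (CC Θ)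
    rw [inf_of_le_left (B3_le (ED D))] at e1
    rw [← e1] at a1 a2
    obtain ⟨b1, b2⟩ := pts hΘ (left_ne_zero_of_mul a1)
    obtain ⟨c1, c2⟩ := UU_idx hΘ (right_ne_zero_of_mul a1)
    exact ⟨b1, c1, (Nat.mul_le_mul b2 c2).trans a2⟩
  obtain ⟨a1, a2, a3⟩ := key θ hθ
  obtain ⟨b1, b2, b3⟩ := key θ' hθ'
  obtain ⟨c1, c2⟩ := U3_idx hθ hθ' (fun P => (h3 _ P).1) a2 b2
  have c3 := index_pair hfg (θ F) (θ' F) (fun P => (h3 F P).2) a1 b1
  have c4 := sha_card (ED D)
  rw [c4]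
  refine ⟨Nat.finite_of_card_ne_zero (by rw [c4]; exact c1), ?_⟩
  calc 3 ^ Module.finrank ℤ (Pt (ED D) F) * (cob (ED D)).relIndex (U3 (ED D)) ≤
      (((θ F).range ⊔ T3 (Pt (ED D) F)).index * ((θ' F).range ⊔ T3 (Pt (ED D) F)).index) *
        ((cob (ED D)).relIndex (UU θ) * (cob (ED D)).relIndex (UU θ')) := Nat.mul_le_mul c3 c2
    _ = (((θ F).range ⊔ T3 (Pt (ED D) F)).index * (cob (ED D)).relIndex (UU θ)) *
        (((θ' F).range ⊔ T3 (Pt (ED D) F)).index * (cob (ED D)).relIndex (UU θ')) := by ring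
    _ ≤ N * N := Nat.mul_le_mul a3 b3
    _ = N ^ 2 := by ring

end Pool.Agent.Q38.CE
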